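import Pool.Agent.W941.RP.Stm

set_option autoImplicit false

/-!
Part SYM: programs as sequences of gates with row-symmetric values.
-/

namespace Pool.Agent.W73.RP

open MvPolynomial Pool.Agent.W941.RP

/-- one more gate -/
theorem step (n k : ℕ) (l : List (MvPolynomial (Fin n × Fin n) ℂ))
    (Q : MvPolynomial (Fin n × Fin n) ℂ) (hG : Gate n k (fun t' => l.getD t' 0) Q)
    (hR : ∀ π : Equiv.Perm (Fin n), rename (fun p => (π p.1, p.2)) Q = Q)
    (ih : (∀ t < l.length, Gate n k (fun t' => if t' < t then l.getD t' 0 else 0) (l.getD t 0)) ∧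
      (∀ t, ∀ π : Equiv.Perm (Fin n), rename (fun p => (π p.1, p.2)) (l.getD t 0) = l.getD t 0)) :
    (∀ t < (l ++ [Q]).length, Gate n k (fun t' => if t' < t then (l ++ [Q]).getD t' 0 else 0)
      ((l ++ [Q]).getD t 0)) ∧
    (∀ t, ∀ π : Equiv.Perm (Fin n),
      rename (fun p => (π p.1, p.2)) ((l ++ [Q]).getD t 0) = (l ++ [Q]).getD t 0) := by
  have h1 : ∀ t < l.length, (l ++ [Q]).getD t 0 = l.getD t 0 := fun t ht =>
    List.getD_append _ _ _ _ ht
  have h2 : (l ++ [Q]).getD l.length 0 = Q := by
    rw [List.getD_append_right _ _ _ _ le_rfl, Nat.sub_self]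
    rfl
  have h3 : ∀ t, l.length < t → (l ++ [Q]).getD t 0 = 0 := by
    intro t ht
    apply List.getD_eq_default
    rw [List.length_append, List.length_singleton]
    omega
  constructor
  · intro t ht
    rw [List.length_append, List.length_singleton] at ht
    rcases Nat.lt_or_ge t l.length with h | h
    · rw [h1 t h]
      have : (fun t' => if t' < t then (l ++ [Q]).getD t' 0 else 0) =
          (fun t' => if t' < t then l.getD t' 0 else 0) := by
        funext t'
        split_ifs with h'
        · exact h1 t' (by omega)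
        · rfl
      rw [this]
      exact ih.1 t h
    · have ht' : t = l.length := by omega
      subst ht'
      rw [h2]
      have : (fun t' => if t' < l.length then (l ++ [Q]).getD t' 0 else 0) =
          (fun t' => l.getD t' 0) := by
        funext t'
        split_ifs with h'
        · exact h1 t' h'
        · exact (List.getD_eq_default _ _ (by omega)).symm
      rw [this]
      exact hG
  · intro t π
    rcases lt_trichotomy t l.length with h | h | h
    · rw [h1 t h]; exact ih.2 t π
    · rw [h, h2]; exact hR π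
    · rw [h3 t h, map_zero]

/-- the summand of a sum gate -/
noncomputable def fs {n k : ℕ} (l : List (MvPolynomial (Fin n × Fin n) ℂ))
    (q : MvPolynomial ((Fin k × Fin n) ⊕ ℕ) ℂ) (i : Fin k → Fin n) :
    MvPolynomial (Fin n × Fin n) ℂ :=
  aeval (Sum.elim (fun p => X (i p.1, p.2)) fun t => l.getD t 0) q

/-- the factor of a product gate -/
noncomputable def fp {n : ℕ} (l : List (MvPolynomial (Fin n × Fin n) ℂ))
    (q : MvPolynomial (Fin n ⊕ ℕ) ℂ) (i : Fin n) :
    MvPolynomial (Fin n × Fin n) ℂ :=
  aeval (Sum.elim (fun j => X (i, j)) fun t => l.getD t 0) q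

set_option maxHeartbeats 400000 in
theorem fs_ren {n k : ℕ} (l : List (MvPolynomial (Fin n × Fin n) ℂ))
    (q : MvPolynomial ((Fin k × Fin n) ⊕ ℕ) ℂ) (i : Fin k → Fin n) (π : Equiv.Perm (Fin n))
    (h : ∀ t, rename (fun p => (π p.1, p.2)) (l.getD t 0) = l.getD t 0) :
    rename (fun p => (π p.1, p.2)) (fs l q i) = fs l q (fun j => π (i j)) := by
  unfold fs
  rw [comp_aeval_apply]
  congr 2
  funext v
  rcases v with p | t
  · simp only [Sum.elim_inl, rename_X]
  · simp only [Sum.elim_inr]
    exact h t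

set_option maxHeartbeats 400000 in
theorem fp_ren {n : ℕ} (l : List (MvPolynomial (Fin n × Fin n) ℂ))
    (q : MvPolynomial (Fin n ⊕ ℕ) ℂ) (i : Fin n) (π : Equiv.Perm (Fin n))
    (h : ∀ t, rename (fun p => (π p.1, p.2)) (l.getD t 0) = l.getD t 0) :
    rename (fun p => (π p.1, p.2)) (fp l q i) = fp l q (π i) := by
  unfold fp
  rw [comp_aeval_apply]
  congr 2
  funext v
  rcases v with p | t
  · simp only [Sum.elim_inl, rename_X]
  · simp only [Sum.elim_inr]
    exact h t

set_option maxHeartbeats 400000 in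
theorem sum_ren {n k : ℕ} (l : List (MvPolynomial (Fin n × Fin n) ℂ))
    (q : MvPolynomial ((Fin k × Fin n) ⊕ ℕ) ℂ) (π : Equiv.Perm (Fin n))
    (h : ∀ t, rename (fun p => (π p.1, p.2)) (l.getD t 0) = l.getD t 0) :
    rename (fun p => (π p.1, p.2)) (∑ i, fs l q i) = ∑ i, fs l q i := by
  rw [map_sum, Finset.sum_congr rfl fun i _ => fs_ren l q i π h]
  exact Equiv.sum_comp (Equiv.piCongrRight (fun _ : Fin k => π)) (fs l q)

set_option maxHeartbeats 400000 in
theorem prod_ren {n : ℕ} (l : List (MvPolynomial (Fin n × Fin n) ℂ))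
    (q : MvPolynomial (Fin n ⊕ ℕ) ℂ) (π : Equiv.Perm (Fin n))
    (h : ∀ t, rename (fun p => (π p.1, p.2)) (l.getD t 0) = l.getD t 0) :
    rename (fun p => (π p.1, p.2)) (∏ i, fp l q i) = ∏ i, fp l q i := by
  rw [map_prod, Finset.prod_congr rfl fun i _ => fp_ren l q i π h]
  exact Equiv.prod_comp π (fp l q)

set_option maxHeartbeats 400000 in
theorem sym : SymStmt := by
  intro n k l hl
  induction hl with
  | nil =>
    constructor
    · intro t ht; simp at ht
    · intro t π; simp
  | sum l q hl ih =>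
    exact step n k l _ (Or.inl ⟨q, rfl⟩) (fun π => sum_ren l q π fun t => ih.2 t π) ih
  | prod l q hl ih =>
    exact step n k l _ (Or.inr ⟨q, rfl⟩) (fun π => prod_ren l q π fun t => ih.2 t π) ih

end Pool.Agent.W73.RP
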